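import Pool.Agent.Q14.BKL.Gw

/-!
# Project BKL, job EQ0
-/

set_option autoImplicit false
set_option linter.unusedSectionVars false

open Filter
open scoped Topology PeriodPair

namespace Pool.Agent.Q14.BKL

open Pool.Agent.Q274.BKL
open H667R3 Pool.Agent.TH936.CM Pool.Agent.TH936.PU
open Pool.Agent.W192.HK (sp nm)
open Pool.Agent.TH936.CW (ek evz Pp Hh)
open Pool.Agent.Y698
open Pool.Agent.Y698.SG (Spl sy PD Fam hc gd mc mr Bg Gd Pe tr Mu)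

variable {L : PeriodPair} {Ω q : ℂ}

theorem Mk_odd (hP : S_PAR) (L : PeriodPair) (q : ℂ) (k : ℕ) (z : ℂ) (hz : z ∉ L.lattice) :
    Mk L q k (-z) = -Mk L q k z := by
  unfold Mk
  rw [hP L (1 / 4) q k z hz]
  ring

theorem Mk_dist (hP : S_PAR) (hD : S_DIST) (h : Dat L Ω q) (k : ℕ) {c : RR} (hc : c ≠ 0)
    [Fintype (RR ⧸ sp c)] (z : ℂ) (hz : (c : ℂ) * z ∉ L.lattice) :
    ∑ t : RR ⧸ sp c, Mk L q k (z + Ω * t.out / c) =
      (c : ℂ) ^ (k + 1) * ((starRingEnd ℂ) (c : ℂ) ^ k)⁻¹ * Mk L q k (c * z) := by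
  unfold Mk
  rw [← Finset.mul_sum, hD hP L Ω (1 / 4) q h.ld.lat h.per k c hc z hz]
  ring

section

variable [Fintype (RR ⧸ sp fR)]

theorem HH_Gw (hP : S_PAR) (h : Dat L Ω q) {u : ℂ} (hu : u ∉ L.lattice)
    (hfu : (fR : ℂ) * u ∉ L.lattice) :
    HH L Ω fR e7 u = Gw Ω (Mk L q 0) u - Gw Ω (Mk L q 0) 0 := by
  have hL := h.ld.lat
  have e1 : ∀ y : RR ⧸ sp fR, e7 y.out * Dd L (Ω * y.out / fR) u =
      e7 y.out * Mk L q 0 (Ω * y.out / fR + u) + e7 y.out * Mk L q 0 (Ω * y.out / fR + -u) -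
        2 * (e7 y.out * Mk L q 0 (Ω * y.out / fR + 0)) := by
    intro y
    by_cases hy : y.out ∈ sp fR
    · rw [e7_eq_zero.2 hy]
      ring
    · have hz : Ω * y.out / fR ∉ L.lattice := by rwa [div_mem_iff hL fR_ne]
      have h1 := Ok_nl hL (Or.inr hfu) hy
      have h2 := Ok_nl hL (Ok_neg (Or.inr hfu)) hy
      rw [← sub_eq_add_neg] at h2
      rw [← sub_eq_add_neg, add_zero, mk0, mk0, mk0, ← zeta_sec hz hu h1 h2, map_add, map_sub]
      ring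
  unfold HH
  rw [Finset.sum_congr rfl fun y _ => e1 y, Finset.sum_sub_distrib, Finset.sum_add_distrib,
    ← Finset.mul_sum]
  have h3 := Gw_neg hL (Pf_Mk h 0) (Mk_odd hP L q 0) (Or.inr hfu)
  unfold Gw at h3 ⊢
  rw [h3]
  ring

theorem Gv_Gw (hP : S_PAR) (h : Dat L Ω q) (T : ℂ) {u : ℂ} (hu : Ok L u) :
    Gv L Ω T u = Gw Ω (Mk L q 0) u - Gw Ω (Mk L q 0) 0 + T := by
  have hL := h.ld.lat
  unfold Gv
  by_cases hl : u ∈ L.lattice
  · rw [if_pos hl, Gw_per hL (Pf_Mk h 0) (u := 0) (w := u) (Or.inl (zero_mem _))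
      (by rwa [sub_zero])]
    ring
  · rw [if_neg hl, HH_Gw hP h hl (hu.resolve_left hl)]

theorem T_Gw (hP : S_PAR) (hD : S_DIST) (h : Dat L Ω q) {T : ℂ}
    (hT : Tendsto (fun δ : ℝ => GG Ω δ 1) (𝓝[>] 0) (𝓝 T)) : T = Gw Ω (Mk L q 0) 0 := by
  have hL := h.ld.lat
  have hq : Inq 5 := ⟨by norm_num, by norm_num, by decide⟩
  have hc0 := hq.gn.ne
  have hcc := hq.gn.cop
  have he := hq.e7
  obtain ⟨c, hc⟩ : ∃ c : RR, c = ((5 : ℕ) : RR) := ⟨_, rfl⟩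
  rw [← hc] at hc0 hcc he
  have f1 := fin_quot hc0
  let _ : Fintype (RR ⧸ sp c) := Fintype.ofFinite _
  have h1 := G_dist hL hT (n := 1) (c := c) one_ne_zero hc0 isCoprime_one_right hcc 0
  have h2 := Gw_dist hL (Pf_Mk h 0) hcc (fun z hz => Mk_dist hP hD h 0 hc0 z hz) (u := 0)
    (by rw [mul_zero]; exact Or.inl (zero_mem _))
  have e1 : ∀ t : RR ⧸ sp c, Gv L Ω T (Ω * ((0 + 1 * t.out : RR) : ℂ) / ((c * 1 : RR) : ℂ)) =
      Gw Ω (Mk L q 0) (0 + Ω * t.out / c) + (T - Gw Ω (Mk L q 0) 0) := by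
    intro t
    have e2 : Ω * ((0 + 1 * t.out : RR) : ℂ) / ((c * 1 : RR) : ℂ) = 0 + Ω * t.out / c := by
      push_cast
      ring
    rw [e2, Gv_Gw hP h]
    · ring
    · rw [zero_add]
      exact Ok_pt hL ⟨hc0, hcc⟩ _
  have e3 : Gv L Ω T (Ω * ((0 : RR) : ℂ) / ((1 : RR) : ℂ)) = T := by
    have e4 : Ω * ((0 : RR) : ℂ) / ((1 : RR) : ℂ) = 0 := by
      push_cast
      ring
    rw [e4]
    unfold Gv
    rw [if_pos (zero_mem _)]
  rw [Finset.sum_congr rfl fun t _ => e1 t, Finset.sum_add_distrib, h2, Finset.sum_const,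
    Finset.card_univ, nsmul_eq_mul, e3, he, mul_zero] at h1
  have hcC : (c : ℂ) = 5 := by
    rw [hc]
    push_cast
    rfl
  rw [hcC] at h1
  have h4 : ((Fintype.card (RR ⧸ sp c) : ℂ) + 5) * (T - Gw Ω (Mk L q 0) 0) = 0 := by
    simp only [zero_add, pow_one, pow_zero, inv_one, mul_one] at h1
    linear_combination h1
  have h5 : ((Fintype.card (RR ⧸ sp c) : ℂ) + 5) ≠ 0 := by
    have : ((Fintype.card (RR ⧸ sp c) + 5 : ℕ) : ℂ) ≠ 0 := by
      rw [Nat.cast_ne_zero]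
      omega
    push_cast at this
    exact this
  exact sub_eq_zero.1 ((mul_eq_zero.1 h4).resolve_left h5)

end

/-- BKL-30 (EQ0). -/
theorem t_EQ0 : Pool.Agent.Q274.BKL.S_EQ0 := by
  intro hP hD L Ω q h _ T hT n φ hn _
  unfold Bw Bg
  refine finsum_congr fun x => ?_
  rw [Gv_Gw hP h T (Ok_pt h.ld.lat hn _), ← T_Gw hP hD h hT]
  ring

end Pool.Agent.Q14.BKL
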