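import Pool.Agent.Q274.BKL.Stm2

/-!
# Project BKL: sums over the points of order `√-7`
-/

set_option autoImplicit false
set_option linter.unusedSectionVars false

open Filter
open scoped Topology PeriodPair

namespace Pool.Agent.Q14.BKL

open Pool.Agent.Q274.BKL
open H667R3 Pool.Agent.TH936.CM Pool.Agent.TH936.PU
open Pool.Agent.W192.HK (sp nm)
open Pool.Agent.TH936.CW (ek evz Pp Hh)
open Pool.Agent.Y698
open Pool.Agent.Y698.SG (Spl sy PD Fam hc gd mc mr Bg Gd Pe tr Mu)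

/-! ### weight zero -/

theorem mk0 (L : PeriodPair) (q z : ℂ) :
    Mk L q 0 z = zeta L z - 1 / 4 * z - q * (starRingEnd ℂ) z := by
  have hM0 : Pool.Agent.TH936.CW.Mm L (1 / 4) 0 = 1 := by
    unfold Pool.Agent.TH936.CW.Mm
    rw [Pool.Agent.TH936.CW.Tt_zero, inv_one]
  have r0 : Pool.Agent.TH936.CW.rh L (1 / 4) 0 = 1 := by
    unfold Pool.Agent.TH936.CW.rh
    rw [iteratedDeriv_zero, hM0]
  have r1 : Pool.Agent.TH936.CW.rh L (1 / 4) 1 = 0 := by
    unfold Pool.Agent.TH936.CW.rh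
    rw [iteratedDeriv_one, (Pool.Agent.TH936.CW.Mm_deriv L (1 / 4)).eq_of_nhds,
      Pool.Agent.TH936.CW.zreg_zero]
    ring
  have hA : Pool.Agent.TH936.CW.Aa L (1 / 4) 1 = MvPolynomial.X 0 := by
    unfold Pool.Agent.TH936.CW.Aa
    rw [Finset.sum_range_succ, Finset.sum_range_one]
    have e1 : (1 : ℕ) - 0 = 1 := rfl
    have e2 : (1 : ℕ) - 1 = 0 := rfl
    have e3 : Pool.Agent.TH936.CW.Uu (1 / 4) L.g₂ 0 = 1 := rfl
    have e4 : Pool.Agent.TH936.CW.Uu (1 / 4) L.g₂ 1 = Pool.Agent.TH936.CW.Dv (1 / 4) L.g₂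
      (Pool.Agent.TH936.CW.Uu (1 / 4) L.g₂ 0) +
        MvPolynomial.X 0 * Pool.Agent.TH936.CW.Uu (1 / 4) L.g₂ 0 := rfl
    rw [e1, e2, r0, r1, e4, e3]
    simp
  unfold Mk ek Pp
  rw [hA]
  unfold evz
  rw [Pool.Agent.TH936.CW.ev_mul, Pool.Agent.TH936.CW.ev_C]
  simp only [Function.iterate_zero, id, Pool.Agent.TH936.CW.ev_X0]
  unfold Pool.Agent.TH936.CW.Xx
  norm_num

/-! ### general functions -/

/-- periodic off the lattice -/
def Pf (L : PeriodPair) (E : ℂ → ℂ) : Prop :=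
  ∀ z w : ℂ, z ∉ L.lattice → w - z ∈ L.lattice → E w = E z

/-- admissible shifts -/
def Ok (L : PeriodPair) (u : ℂ) : Prop := u ∈ L.lattice ∨ (fR : ℂ) * u ∉ L.lattice

theorem Pf_Mk {L : PeriodPair} {Ω q : ℂ} (h : Dat L Ω q) (k : ℕ) : Pf L (Mk L q k) := by
  intro z w hz hw
  unfold Mk
  rw [Pool.Agent.TH936.CW.ek_per h.per k hz hw]

theorem fR0 : (fR : ℂ) ≠ 0 := coe_ne fR_ne

variable {L : PeriodPair} {Ω : ℂ}

theorem Ok_nl (hL : IsLat L RR Ω) {u : ℂ} (hu : Ok L u) {y : RR} (hy : y ∉ sp fR) :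
    Ω * y / fR + u ∉ L.lattice := by
  intro h
  rcases hu with hu | hu
  · have h1 := sub_mem h hu
    rw [add_sub_cancel_right, div_mem_iff hL fR_ne] at h1
    exact hy h1
  · apply hu
    have h1 := sub_mem (hL.mul fR _ h) (hL.mem_mul y)
    have e : (fR : ℂ) * (Ω * y / fR + u) - Ω * y = fR * u := by
      have := fR0
      field_simp
      ring
    rwa [e] at h1

theorem Ok_pt (hL : IsLat L RR Ω) {n : RR} (hn : Gd n) (x : RR) : Ok L (Ω * x / n) :=
  pt_ok hL hn.ne hn.cop x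

section

variable [Fintype (RR ⧸ sp fR)] {E : ℂ → ℂ}

theorem Gw_term (hL : IsLat L RR Ω) (hE : Pf L E) {u : ℂ} (hu : Ok L u) {x y : RR}
    (h : x - y ∈ sp fR) : e7 x * E (Ω * x / fR + u) = e7 y * E (Ω * y / fR + u) := by
  rw [e7_per h]
  by_cases hy : y ∈ sp fR
  · rw [e7_eq_zero.2 hy, zero_mul, zero_mul]
  · congr 1
    apply hE _ _ (Ok_nl hL hu hy)
    have h1 := (div_mem_iff hL fR_ne (x - y)).2 h
    have e : (Ω * x / fR + u) - (Ω * y / fR + u) = Ω * ((x - y : RR) : ℂ) / fR := by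
      push_cast
      ring
    rw [e]
    exact h1

theorem bij_cop {c : RR} (hc : IsCoprime fR c) :
    Function.Bijective (fun y : RR ⧸ sp fR => Ideal.Quotient.mk (sp fR) (c * y.out)) := by
  have hu : IsUnit (Ideal.Quotient.mk (sp fR) c) := by
    obtain ⟨a, b, hab⟩ := hc
    refine IsUnit.of_mul_eq_one (Ideal.Quotient.mk (sp fR) b) ?_
    rw [← map_mul, ← map_one (Ideal.Quotient.mk (sp fR)), Ideal.Quotient.mk_eq_mk_iff_sub_mem,
      Ideal.mem_span_singleton']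
    exact ⟨-a, by linear_combination -hab⟩
  obtain ⟨u, hu⟩ := hu
  have e1 : (fun y : RR ⧸ sp fR => Ideal.Quotient.mk (sp fR) (c * y.out)) =
      fun y => (Units.mulLeft u) y := by
    funext y
    rw [map_mul, Ideal.Quotient.mk_out, Units.mulLeft_apply, hu]
  rw [e1]
  exact (Units.mulLeft u).bijective

theorem Gw_mul (hL : IsLat L RR Ω) (hE : Pf L E) {c : RR} (hc : IsCoprime fR c) {w : ℂ}
    (hw : Ok L w) : ∑ y : RR ⧸ sp fR, e7 y.out * E (c * (Ω * y.out / fR) + w) =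
      e7 c * Gw Ω E w := by
  have hcm := not_mem_of_cop hc
  unfold Gw
  rw [sum_rep _ (bij_cop hc) (fun r : RR => e7 r * E (Ω * r / fR + w))
    (fun x y h => Gw_term hL hE hw h), Finset.mul_sum]
  refine Finset.sum_congr rfl fun y _ => ?_
  rw [e7_mul]
  have e2 : (Ω * ((c * y.out : RR) : ℂ) / fR + w) = c * (Ω * y.out / fR) + w := by
    push_cast
    ring
  rw [e2]
  linear_combination -(e7 y.out * E (c * (Ω * y.out / fR) + w)) * e7_sq hcm

theorem Gw_per (hL : IsLat L RR Ω) (hE : Pf L E) {u w : ℂ} (hu : Ok L u)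
    (h : w - u ∈ L.lattice) : Gw Ω E w = Gw Ω E u := by
  unfold Gw
  refine Finset.sum_congr rfl fun y _ => ?_
  by_cases hy : y.out ∈ sp fR
  · rw [e7_eq_zero.2 hy, zero_mul, zero_mul]
  · congr 1
    apply hE _ _ (Ok_nl hL hu hy)
    rwa [add_sub_add_left_eq_sub]

theorem Ok_neg {u : ℂ} (hu : Ok L u) : Ok L (-u) := by
  rcases hu with h | h
  · exact Or.inl (neg_mem h)
  · refine Or.inr fun h1 => h ?_
    have := neg_mem h1
    rwa [mul_neg, neg_neg] at this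

theorem Gw_neg (hL : IsLat L RR Ω) (hE : Pf L E) (ho : ∀ z, z ∉ L.lattice → E (-z) = -E z)
    {u : ℂ} (hu : Ok L u) : Gw Ω E (-u) = Gw Ω E u := by
  have h1 := Gw_mul (c := -1) hL hE (by
    rw [IsCoprime.neg_right_iff]
    exact isCoprime_one_right) (Ok_neg hu)
  have h2 : ∑ y : RR ⧸ sp fR, e7 y.out * E (((-1 : RR) : ℂ) * (Ω * y.out / fR) + -u) =
      -Gw Ω E u := by
    unfold Gw
    rw [← Finset.sum_neg_distrib]
    refine Finset.sum_congr rfl fun y _ => ?_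
    by_cases hy : y.out ∈ sp fR
    · rw [e7_eq_zero.2 hy, zero_mul, zero_mul, neg_zero]
    · have e : ((-1 : RR) : ℂ) * (Ω * y.out / fR) + -u = -(Ω * y.out / fR + u) := by
        push_cast
        ring
      rw [e, ho _ (Ok_nl hL hu hy)]
      ring
  rw [h2, e7_neg, e7_one] at h1
  linear_combination h1

theorem Gw_dist (hL : IsLat L RR Ω) (hE : Pf L E) {K : ℂ} {c : RR} (hc : IsCoprime fR c)
    [Fintype (RR ⧸ sp c)] (hD : ∀ z : ℂ, (c : ℂ) * z ∉ L.lattice →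
      ∑ t : RR ⧸ sp c, E (z + Ω * t.out / c) = K * E (c * z)) {u : ℂ} (hu : Ok L (c * u)) :
    ∑ t : RR ⧸ sp c, Gw Ω E (u + Ω * t.out / c) = K * e7 c * Gw Ω E (c * u) := by
  have hcm := not_mem_of_cop hc
  unfold Gw
  rw [Finset.sum_comm]
  have e1 : ∀ y : RR ⧸ sp fR, ∑ t : RR ⧸ sp c, e7 y.out *
      E (Ω * y.out / fR + (u + Ω * t.out / c)) =
      K * (e7 y.out * E (c * (Ω * y.out / fR) + c * u)) := by
    intro y
    rw [← Finset.mul_sum]
    by_cases hy : y.out ∈ sp fR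
    · rw [e7_eq_zero.2 hy, zero_mul, zero_mul, mul_zero]
    · have hcy : c * y.out ∉ sp fR := by
        intro h
        rw [Ideal.mem_span_singleton] at h hy
        exact hy (hc.dvd_of_dvd_mul_left h)
      have h1 := Ok_nl hL hu hcy
      have e2 : Ω * ((c * y.out : RR) : ℂ) / fR + c * u = c * (Ω * y.out / fR + u) := by
        push_cast
        ring
      rw [e2] at h1
      have h2 := hD _ h1
      have h3 : ∑ t : RR ⧸ sp c, E (Ω * y.out / fR + (u + Ω * t.out / c)) =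
          ∑ t : RR ⧸ sp c, E (Ω * y.out / fR + u + Ω * t.out / c) :=
        Finset.sum_congr rfl fun t _ => by rw [add_assoc]
      rw [h3, h2, mul_add]
      ring
  rw [Finset.sum_congr rfl (fun y _ => e1 y), ← Finset.mul_sum, Gw_mul hL hE hc hu]
  unfold Gw
  ring

end

end Pool.Agent.Q14.BKL
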