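import Pool.Agent.Q14.BKL.NSUB

/-!
# Project BKL, job IND
-/

set_option autoImplicit false
set_option linter.unusedSectionVars false

open Filter
open scoped Topology PeriodPair

namespace Pool.Agent.Q14.BKL

open Pool.Agent.Q274.BKL
open H667R3 Pool.Agent.TH936.CM Pool.Agent.TH936.PU
open Pool.Agent.W192.HK (sp nm)
open Pool.Agent.TH936.CW (ek evz Pp Hh)
open Pool.Agent.Y698
open Pool.Agent.Y698.SG (Spl sy PD Fam hc gd mc mr Bg Gd Pe tr Mu Rd)

variable {L : PeriodPair} {Ω q : ℂ} {Γ : Type} [LinearOrderedCommGroupWithZero Γ]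
  {v : Valuation ℂ Γ}

theorem v_prod_cong {κ : Type} [DecidableEq κ] (s : Finset κ) {f g : κ → ℂ}
    (hf : ∀ i ∈ s, v (f i) ≤ 1) (hg : ∀ i ∈ s, v (g i) ≤ 1) (h : ∀ i ∈ s, v (f i - g i) < 1) :
    v (∏ i ∈ s, f i - ∏ i ∈ s, g i) < 1 := by
  induction s using Finset.induction_on with
  | empty =>
    rw [Finset.prod_empty, Finset.prod_empty, sub_self, map_zero]
    exact zero_lt_one
  | insert i s hi ih =>
    have ih' := ih (fun j hj => hf j (Finset.mem_insert_of_mem hj))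
      (fun j hj => hg j (Finset.mem_insert_of_mem hj))
      (fun j hj => h j (Finset.mem_insert_of_mem hj))
    have h1 := hf i (Finset.mem_insert_self _ _)
    have h2 := h i (Finset.mem_insert_self _ _)
    have h3 : v (∏ j ∈ s, g j) ≤ 1 :=
      v_prod_le s fun j hj => hg j (Finset.mem_insert_of_mem hj)
    rw [Finset.prod_insert hi, Finset.prod_insert hi]
    have e : f i * ∏ j ∈ s, f j - g i * ∏ j ∈ s, g j =
        f i * (∏ j ∈ s, f j - ∏ j ∈ s, g j) + (f i - g i) * ∏ j ∈ s, g j := by ring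
    rw [e]
    exact v_add_lt (v_mul_lt h1 ih') (v_mul_lt' h2 h3)

theorem v_four2 : v 4 = v 2 * v 2 := by
  rw [← map_mul]
  norm_num

/-- the two factors -/
theorem v_fac (hv : v al < 1) {e : ℂ} (he : e = 1 ∨ e = -1) :
    v (1 - bl⁻¹ * e) ≤ v 2 ∧ (e = 1 → v (1 - bl⁻¹ * e) = v 2) := by
  have hb0 : bl ≠ 0 := bl_ne
  have hbi : v bl⁻¹ = 1 := by rw [map_inv₀, v_bl hv, inv_one]
  have h1 : e = 1 → v (1 - bl⁻¹ * e) = v 2 := by
    rintro rfl
    have e1 : 1 - bl⁻¹ * 1 = bl⁻¹ * (-al) := by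
      field_simp
      unfold bl
      ring
    rw [e1, map_mul, hbi, one_mul, Valuation.map_neg, v_two hv]
  refine ⟨?_, h1⟩
  rcases he with h | h
  · exact (h1 h).le
  · have e1 : 1 - bl⁻¹ * e = bl⁻¹ * (-(al * al)) := by
      rw [h]
      field_simp
      have := al_sq
      unfold bl
      linear_combination this
    rw [e1, map_mul, hbi, one_mul, Valuation.map_neg, map_mul, v_two hv]
    calc v al * v al ≤ v al * 1 := mul_le_mul_right hv.le _
      _ = v al := mul_one _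

/-- comparison of the Euler factors -/
theorem v_eul (hv : v al < 1) {ϖ : RR} (hp : PD ϖ) (k : ℕ) {κ : ℂ} (hκ : κ = 1 ∨ κ = -1) :
    v (((ϖ : ℂ) * e7 ϖ - κ) / 2) ≤ 1 ∧
    v (((ϖ : ℂ) ^ (k + 1) * ((starRingEnd ℂ) (ϖ : ℂ) ^ k)⁻¹ * e7 ϖ - κ) / 2) ≤ 1 ∧
    v (((ϖ : ℂ) ^ (k + 1) * ((starRingEnd ℂ) (ϖ : ℂ) ^ k)⁻¹ * e7 ϖ - κ) / 2 -
      ((ϖ : ℂ) * e7 ϖ - κ) / 2) < 1 := by
  have t2 := v_two_lt hv
  have h20 : v 2 ≠ 0 := (Valuation.ne_zero_iff v).2 two_ne_zero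
  have h1 := (Rd.euler hv hp.m4 (SG.e7_sgn hp.cop) hκ).le
  have hconj : (starRingEnd ℂ) (ϖ : ℂ) = ((cj ϖ : RR) : ℂ) := (cj_coe ϖ).symm
  obtain ⟨u, hu⟩ := hp.m4
  have hcu : cj ϖ = 1 + 4 * cj u := by
    rw [hu, map_add, map_one, map_mul]
    congr 2
    exact map_ofNat cj 4
  have hvc : v ((cj ϖ : RR) : ℂ) = 1 := by
    have e : ((cj ϖ : RR) : ℂ) = 1 + 4 * ((cj u : RR) : ℂ) := by
      rw [hcu]
      push_cast
      rfl
    rw [e, Valuation.map_add_eq_of_lt_left v, map_one]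
    rw [map_one]
    have e4 : (4 : ℂ) = 2 * 2 := by norm_num
    rw [e4]
    exact v_mul_lt' (v_mul_lt' t2 t2.le) (SG.v_RR hv _)
  have hc0 : ((cj ϖ : RR) : ℂ) ≠ 0 := by
    intro h0
    rw [h0, map_zero] at hvc
    exact zero_ne_one hvc
  obtain ⟨t, ht⟩ := sub_dvd_pow_sub_pow ϖ (cj ϖ) k
  have hd : (ϖ : ℂ) ^ k - ((cj ϖ : RR) : ℂ) ^ k = 4 * (((u - cj u) * t : RR) : ℂ) := by
    have e1 : ϖ ^ k - cj ϖ ^ k = 4 * ((u - cj u) * t) := by
      rw [ht]
      have : ϖ - cj ϖ = 4 * (u - cj u) := by rw [hcu, hu]; ring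
      rw [this]
      ring
    have e2 := congrArg (fun x : RR => (x : ℂ)) e1
    push_cast at e2 ⊢
    exact e2
  have hve : v (e7 ϖ) ≤ 1 := by
    rcases SG.e7_sgn hp.cop with h | h <;> rw [h]
    · rw [map_one]
    · rw [Valuation.map_neg, map_one]
  have h3 : v (((ϖ : ℂ) ^ (k + 1) * ((starRingEnd ℂ) (ϖ : ℂ) ^ k)⁻¹ * e7 ϖ - κ) / 2 -
      ((ϖ : ℂ) * e7 ϖ - κ) / 2) < 1 := by
    have e : ((ϖ : ℂ) ^ (k + 1) * ((starRingEnd ℂ) (ϖ : ℂ) ^ k)⁻¹ * e7 ϖ - κ) / 2 -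
        ((ϖ : ℂ) * e7 ϖ - κ) / 2 =
        2 * (((ϖ : ℂ) * e7 ϖ) * ((((u - cj u) * t : RR) : ℂ) *
          (((cj ϖ : RR) : ℂ) ^ k)⁻¹)) := by
      rw [hconj]
      have hck : ((cj ϖ : RR) : ℂ) ^ k ≠ 0 := pow_ne_zero _ hc0
      field_simp
      rw [pow_succ]
      linear_combination ((ϖ : ℂ) * e7 ϖ) * hd
    rw [e]
    refine v_mul_lt' t2 (v_mul_le (v_mul_le (SG.v_RR hv _) hve) (v_mul_le (SG.v_RR hv _) ?_))
    rw [map_inv₀, map_pow, hvc, one_pow, inv_one]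
  refine ⟨h1, ?_, h3⟩
  have e : ((ϖ : ℂ) ^ (k + 1) * ((starRingEnd ℂ) (ϖ : ℂ) ^ k)⁻¹ * e7 ϖ - κ) / 2 =
      (((ϖ : ℂ) ^ (k + 1) * ((starRingEnd ℂ) (ϖ : ℂ) ^ k)⁻¹ * e7 ϖ - κ) / 2 -
        ((ϖ : ℂ) * e7 ϖ - κ) / 2) + ((ϖ : ℂ) * e7 ϖ - κ) / 2 := by ring
  rw [e]
  exact v_add_le h3.le h1

/-- BKL-32 (IND). -/
theorem t_IND : Pool.Agent.Q274.BKL.S_IND := by
  intro hP hD hW hN hE hCK hJ L Ω q h Γ _ v hv _ ι _ S π hS hg hsa hsb k hk hk2
  have hL := h.ld.lat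
  have t2 := v_two_lt hv
  have h20 : v 2 ≠ 0 := (Valuation.ne_zero_iff v).2 two_ne_zero
  have h40 : v 4 ≠ 0 := (Valuation.ne_zero_iff v).2 (by norm_num)
  obtain ⟨F, -, -, hF⟩ := val_one
  have hT := hF L Ω hL
  obtain ⟨T, hTd⟩ : ∃ T : ℂ, T = 2 * (starRingEnd ℂ) (F 1) * fR / Ω := ⟨_, rfl⟩
  rw [← hTd] at hT
  have hvT : v T = 1 := h.ld.v_T hv hT
  -- the auxiliary multiplier
  have hcb : IsCoprime (fR * ∏ i ∈ S, π i) bR := by
    have c1 : IsCoprime fR (2 : RR) := by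
      refine ⟨-fR, -3, ?_⟩
      have := fR_sq
      linear_combination -this
    have c2 := cop_two hS
    rw [← aR_mul_bR] at c1 c2
    exact c1.of_mul_right_right.mul_left c2.of_mul_right_right
  obtain ⟨x, m, hxm⟩ := hcb
  have hm : m * bR - 1 ∈ sp (fR * ∏ i ∈ S, π i) := by
    rw [Ideal.mem_span_singleton']
    exact ⟨-x, by linear_combination -hxm⟩
  -- the sums
  obtain ⟨X, hX⟩ : ∃ X : Finset ι → ℂ, ∀ A, X A = Bw Ω (Mk L q k) (∏ i ∈ A, π i)
      (fun x => ∏ i ∈ A, sy (π i) x) := ⟨_, fun _ => rfl⟩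
  obtain ⟨Y, hY⟩ : ∃ Y : Finset ι → ℂ, ∀ A, Y A = Bw Ω (fun z => N1 L q (m * z)) (∏ i ∈ A, π i)
      (fun x => ∏ i ∈ A, sy (π i) x) := ⟨_, fun _ => rfl⟩
  obtain ⟨XH, hXH⟩ : ∃ X : Finset ι → ℂ, ∀ A, X A = Bw Ω (Mk L q k) (∏ i ∈ A, π i)
      (fun x => ∏ i ∈ A, hc (π i) x) := ⟨_, fun _ => rfl⟩
  obtain ⟨YH, hYH⟩ : ∃ Y : Finset ι → ℂ, ∀ A, Y A = Bw Ω (fun z => N1 L q (m * z)) (∏ i ∈ A, π i)
      (fun x => ∏ i ∈ A, hc (π i) x) := ⟨_, fun _ => rfl⟩
  obtain ⟨G, hG⟩ : ∃ G : Finset ι → ℂ, ∀ A, G A = Bg L Ω T (∏ i ∈ A, π i)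
      (fun x => ∏ i ∈ A, sy (π i) x) := ⟨_, fun _ => rfl⟩
  have hrd : ∀ A ⊆ S, Rd v (G A / (1 * 2 ^ A.card * T)) (gd (mc π) (mr π) A) := by
    intro A hA
    have h1 := SG.ind (v := v) (n := 1) (φ := fun _ => 1) (K := 1) SG.inp.rec' hL hT hv hvT
      SG.Gd.one (fun _ _ _ => rfl) one_ne_zero
      (by rw [SG.Bg_one hL, div_one, sub_self, map_zero]; exact zero_lt_one)
      hS (fun i _ m => by ring)
      (by
        intro A hA hne
        rw [div_one, mul_one]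
        simp only [one_mul]
        exact SG.Bg_hc h.ld hv hvT (hS.mono hA) hne) A hA
    rw [mul_one] at h1
    simp only [one_mul] at h1
    rw [one_mul, hG]
    exact h1
  have hG1 : ∀ A ⊆ S, v (G A / 2 ^ A.card) ≤ 1 := by
    intro A hA
    have h1 := (hrd A hA).le
    have hT0 : T ≠ 0 := by
      rintro rfl
      rw [map_zero] at hvT
      exact zero_ne_one hvT
    have e : G A / (1 * 2 ^ A.card * T) = G A / 2 ^ A.card * T⁻¹ := by
      field_simp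
    rw [e, map_mul, map_inv₀, hvT, inv_one, mul_one] at h1
    exact h1
  have hGS : v (G S) = v 2 ^ S.card := by
    have h1 := SG.Rd.fin hvT one_ne_zero hg (hrd S (Finset.Subset.refl S))
    rw [h1, map_one, one_mul]
  have hsgn : ∀ A ⊆ S, ∀ c : RR, IsCoprime (∏ i ∈ S, π i) c →
      (∏ i ∈ A, sy (π i) c = 1 ∨ ∏ i ∈ A, sy (π i) c = -1) := fun A hA c hc =>
    sq_eq_one_iff.1 ((mixed hS hA).2.2 c hc)
  have hca : IsCoprime (∏ i ∈ S, π i) aR := by
    have := cop_two hS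
    rw [← aR_mul_bR] at this
    exact this.of_mul_right_left
  have hcb : IsCoprime (∏ i ∈ S, π i) bR := by
    have := cop_two hS
    rw [← aR_mul_bR] at this
    exact this.of_mul_right_right
  have hYG : ∀ A ⊆ S, Y A = (1 - bl⁻¹ * ∏ i ∈ A, sy (π i) aR) *
      (1 - bl⁻¹ * ∏ i ∈ A, sy (π i) bR) * G A := by
    intro A hA
    rw [hY, hG, (hN hP hD L Ω q h ι S π hS m hm A hA).1,
      hE hP hD L Ω q h T hT _ (fun x => ∏ i ∈ A, sy (π i) x)
        (SG.Gd.prod fun i hi => (hS.pd i (hA hi)).gd) (SG.Pe.prod fun i _ => SG.sy_per (π i))]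
  have hb1 : ∀ A ⊆ S, v (Y A / (4 * 2 ^ A.card)) ≤ 1 := by
    intro A hA
    have h1 := (v_fac hv (hsgn A hA aR hca)).1
    have h2 := (v_fac hv (hsgn A hA bR hcb)).1
    have e : Y A / (4 * 2 ^ A.card) = (1 - bl⁻¹ * ∏ i ∈ A, sy (π i) aR) / 2 *
        ((1 - bl⁻¹ * ∏ i ∈ A, sy (π i) bR) / 2) * (G A / 2 ^ A.card) := by
      rw [hYG A hA]
      field_simp
      ring
    rw [e]
    refine v_mul_le (v_mul_le ?_ ?_) (hG1 A hA)
    · rw [map_div₀]
      exact (div_le_one₀ (zero_lt_iff.2 h20)).2 h1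
    · rw [map_div₀]
      exact (div_le_one₀ (zero_lt_iff.2 h20)).2 h2
  have hbS : v (Y S) = v 4 * v 2 ^ S.card := by
    have h1 := (v_fac hv (hsgn S (Finset.Subset.refl S) aR hca)).2 hsa
    have h2 := (v_fac hv (hsgn S (Finset.Subset.refl S) bR hcb)).2 hsb
    rw [hYG S (Finset.Subset.refl S), map_mul, map_mul, h1, h2, hGS, v_four2]
  -- the induction
  have key : ∀ A : Finset ι, A ⊆ S → v (X A / (4 * 2 ^ A.card) - Y A / (4 * 2 ^ A.card)) < 1 := by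
    intro A
    induction A using Finset.strongInduction with
    | H A ih =>
      intro hA
      have hFA := hS.mono hA
      obtain ⟨f, hf⟩ : ∃ f : Finset ι → ι → ℂ, ∀ B i, f B i = ((π i : ℂ) ^ (k + 1) *
        ((starRingEnd ℂ) (π i : ℂ) ^ k)⁻¹ * e7 (π i) - ∏ j ∈ B, sy (π j) (π i)) / 2 :=
        ⟨_, fun _ _ => rfl⟩
      obtain ⟨g, hgd⟩ : ∃ g : Finset ι → ι → ℂ, ∀ B i, g B i = ((π i : ℂ) * e7 (π i) -
        ∏ j ∈ B, sy (π j) (π i)) / 2 := ⟨_, fun _ _ => rfl⟩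
      have w1 := hW hP hD L Ω q h k ι A π hFA
      have w2 := (hN hP hD L Ω q h ι S π hS m hm A hA).2
      have w3 := hJ hCK hP L Ω q h Γ v hv ι A π hFA m (mem_sub hA hm) k hk hk2
      rw [← hXH, ← hYH] at w3
      rw [← hXH] at w1
      rw [← hYH] at w2
      have e1 : ∀ B ∈ A.powerset, (∏ i ∈ A \ B, ((π i : ℂ) ^ (k + 1) *
          ((starRingEnd ℂ) (π i : ℂ) ^ k)⁻¹ * e7 (π i) - ∏ j ∈ B, sy (π j) (π i))) *
          Bw Ω (Mk L q k) (∏ i ∈ B, π i) (fun m => ∏ i ∈ B, sy (π i) m) =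
          (4 * 2 ^ A.card) * ((∏ i ∈ A \ B, f B i) * (X B / (4 * 2 ^ B.card))) := by
        intro B hB
        rw [Finset.mem_powerset] at hB
        have hcs : A.card = (A \ B).card + B.card := (Finset.card_sdiff_add_card_eq_card hB).symm
        have e2 : ∏ i ∈ A \ B, f B i = (∏ i ∈ A \ B, ((π i : ℂ) ^ (k + 1) *
          ((starRingEnd ℂ) (π i : ℂ) ^ k)⁻¹ * e7 (π i) - ∏ j ∈ B, sy (π j) (π i))) /
            2 ^ (A \ B).card := by
          rw [← Finset.prod_const, ← Finset.prod_div_distrib]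
          exact Finset.prod_congr rfl fun i _ => hf B i
        rw [e2, hX, hcs, pow_add]
        field_simp
      have e1' : ∀ B ∈ A.powerset, (∏ i ∈ A \ B, ((π i : ℂ) * e7 (π i) -
          ∏ j ∈ B, sy (π j) (π i))) *
          Bw Ω (fun z => N1 L q (m * z)) (∏ i ∈ B, π i) (fun x => ∏ i ∈ B, sy (π i) x) =
          (4 * 2 ^ A.card) * ((∏ i ∈ A \ B, g B i) * (Y B / (4 * 2 ^ B.card))) := by
        intro B hB
        rw [Finset.mem_powerset] at hB
        have hcs : A.card = (A \ B).card + B.card := (Finset.card_sdiff_add_card_eq_card hB).symm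
        have e2 : ∏ i ∈ A \ B, g B i = (∏ i ∈ A \ B, ((π i : ℂ) * e7 (π i) -
          ∏ j ∈ B, sy (π j) (π i))) / 2 ^ (A \ B).card := by
          rw [← Finset.prod_const, ← Finset.prod_div_distrib]
          exact Finset.prod_congr rfl fun i _ => hgd B i
        rw [e2, hY, hcs, pow_add]
        field_simp
      rw [Finset.sum_congr rfl e1, ← Finset.mul_sum, ← Finset.add_sum_erase _ _
        (Finset.mem_powerset_self A), Finset.sdiff_self, Finset.prod_empty, one_mul] at w1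
      rw [Finset.sum_congr rfl e1', ← Finset.mul_sum, ← Finset.add_sum_erase _ _
        (Finset.mem_powerset_self A), Finset.sdiff_self, Finset.prod_empty, one_mul] at w2
      have h2A : (4 : ℂ) * (2 : ℂ) ^ A.card ≠ 0 :=
        mul_ne_zero (by norm_num) (pow_ne_zero _ two_ne_zero)
      have e3 : X A / (4 * 2 ^ A.card) - Y A / (4 * 2 ^ A.card) = (XH A - YH A) / 4 -
          ∑ B ∈ A.powerset.erase A, ((∏ i ∈ A \ B, f B i) * (X B / (4 * 2 ^ B.card)) -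
            (∏ i ∈ A \ B, g B i) * (Y B / (4 * 2 ^ B.card))) := by
        rw [Finset.sum_sub_distrib]
        have e4 : X A / (4 * 2 ^ A.card) + ∑ B ∈ A.powerset.erase A,
            (∏ i ∈ A \ B, f B i) * (X B / (4 * 2 ^ B.card)) = XH A / 4 := by
          apply mul_left_cancel₀ h2A
          rw [w1]
          ring
        have e5 : Y A / (4 * 2 ^ A.card) + ∑ B ∈ A.powerset.erase A,
            (∏ i ∈ A \ B, g B i) * (Y B / (4 * 2 ^ B.card)) = YH A / 4 := by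
          apply mul_left_cancel₀ h2A
          rw [w2]
          ring
        linear_combination e4 - e5
      rw [e3]
      refine v_sub_lt ?_ (Pool.Agent.TH936.PU.v_sum_lt _ fun B hB => ?_)
      · rw [map_div₀]
        exact (div_lt_one₀ (zero_lt_iff.2 h40)).2 w3
      · rw [Finset.mem_erase, Finset.mem_powerset] at hB
        have hss : B ⊂ A := hB.2.ssubset_of_ne hB.1
        have hBS := hB.2.trans hA
        have hκ : ∀ i ∈ A \ B, (∏ j ∈ B, sy (π j) (π i) = 1 ∨ ∏ j ∈ B, sy (π j) (π i) = -1) := by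
          intro i hi
          rw [Finset.mem_sdiff] at hi
          exact (SG.sgn_prod (s := B) (f := fun j => sy (π j) (π i)) fun j hj => SG.sy_sgn
            (hFA.ne i hi.1 j (hB.2 hj) fun h => hi.2 (h ▸ hj))).1
        have hpd : ∀ i ∈ A \ B, PD (π i) := fun i hi => hFA.pd i (Finset.mem_sdiff.1 hi).1
        have f1 : ∀ i ∈ A \ B, v (f B i) ≤ 1 := fun i hi => by
          rw [hf]
          exact (v_eul hv (hpd i hi) k (hκ i hi)).2.1
        have g1 : ∀ i ∈ A \ B, v (g B i) ≤ 1 := fun i hi => by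
          rw [hgd]
          exact (v_eul hv (hpd i hi) k (hκ i hi)).1
        have fg : ∀ i ∈ A \ B, v (f B i - g B i) < 1 := fun i hi => by
          rw [hf, hgd]
          exact (v_eul hv (hpd i hi) k (hκ i hi)).2.2
        have e6 : (∏ i ∈ A \ B, f B i) * (X B / (4 * 2 ^ B.card)) -
            (∏ i ∈ A \ B, g B i) * (Y B / (4 * 2 ^ B.card)) =
            (∏ i ∈ A \ B, f B i) * (X B / (4 * 2 ^ B.card) - Y B / (4 * 2 ^ B.card)) +
            (∏ i ∈ A \ B, f B i - ∏ i ∈ A \ B, g B i) * (Y B / (4 * 2 ^ B.card)) := by ring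
        rw [e6]
        exact v_add_lt (v_mul_lt (v_prod_le _ f1) (ih B hss hBS))
          (v_mul_lt' (v_prod_cong _ f1 g1 fg) (hb1 B hBS))
  have hfin := key S (Finset.Subset.refl S)
  have h2S : (2 : ℂ) ^ S.card ≠ 0 := pow_ne_zero _ two_ne_zero
  have hKS : v (4 * 2 ^ S.card) = v 4 * v 2 ^ S.card := by rw [map_mul, map_pow]
  have hK0 : v (4 * 2 ^ S.card) ≠ 0 := by
    rw [hKS]
    exact mul_ne_zero h40 (pow_ne_zero _ h20)
  have hYS : v (Y S / (4 * 2 ^ S.card)) = 1 := by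
    rw [map_div₀, hbS, hKS, div_self]
    rw [← hKS]
    exact hK0
  have hXS : v (X S / (4 * 2 ^ S.card)) = 1 := by
    have e : X S / (4 * 2 ^ S.card) = Y S / (4 * 2 ^ S.card) +
        (X S / (4 * 2 ^ S.card) - Y S / (4 * 2 ^ S.card)) := by ring
    rw [e, Valuation.map_add_eq_of_lt_left v (by rw [hYS]; exact hfin), hYS]
  rw [map_div₀, div_eq_one_iff_eq hK0, hKS, hX] at hXS
  exact hXS

end Pool.Agent.Q14.BKL
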