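import Pool.Agent.Q14.BKL.EQ0

/-!
# Project BKL, job NSUB
-/

set_option autoImplicit false
set_option linter.unusedSectionVars false

open Filter
open scoped Topology PeriodPair

namespace Pool.Agent.Q14.BKL

open Pool.Agent.Q274.BKL
open H667R3 Pool.Agent.TH936.CM Pool.Agent.TH936.PU
open Pool.Agent.W192.HK (sp nm)
open Pool.Agent.TH936.CW (ek evz Pp Hh)
open Pool.Agent.Y698
open Pool.Agent.Y698.SG (Spl sy PD Fam hc gd mc mr Bg Gd Pe tr Mu)

variable {L : PeriodPair} {Ω q : ℂ}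

theorem e7_aR : e7 aR = 1 := by
  unfold e7
  rw [r7_apply, cXY_aR.1, cXY_aR.2]
  have h : quadraticChar (ZMod 7) (((0 : ℤ) : ZMod 7) + ((1 : ℤ) : ZMod 7) * 4) = 1 := by decide
  rw [h, Int.cast_one]

theorem e7_bR : e7 bR = 1 := by
  unfold e7 bR
  rw [map_sub, map_one, r7_apply, cXY_aR.1, cXY_aR.2]
  have h : quadraticChar (ZMod 7) (1 - (((0 : ℤ) : ZMod 7) + ((1 : ℤ) : ZMod 7) * 4)) = 1 := by
    decide
  rw [h, Int.cast_one]

theorem sy_one {ϖ : RR} (h : PD ϖ) : sy ϖ 1 = 1 := by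
  have h1 := h.mul 1 1
  rw [mul_one] at h1
  have h2 : (1 : RR) ∉ sp ϖ := by
    rw [Ideal.mem_span_singleton]
    exact fun h3 => h.pr.not_isUnit (isUnit_of_dvd_one h3)
  rcases SG.sy_sgn h2 with h3 | h3
  · exact h3
  · rw [h3] at h1
    norm_num at h1

section

variable [Fintype (RR ⧸ sp fR)] {E : ℂ → ℂ}

theorem Bw_eq (E : ℂ → ℂ) (n : RR) [Fintype (RR ⧸ sp n)] (φ : RR → ℂ) :
    Bw Ω E n φ = ∑ x : RR ⧸ sp n, φ x.out * Gw Ω E (Ω * x.out / (n : ℂ)) :=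
  finsum_eq_sum_of_fintype _

theorem Bw_term (hL : IsLat L RR Ω) (hE : Pf L E) {n : RR} (hn : Gd n) {φ : RR → ℂ}
    (hφ : Pe n φ) {x y : RR} (h : x - y ∈ sp n) :
    φ x * Gw Ω E (Ω * x / (n : ℂ)) = φ y * Gw Ω E (Ω * y / (n : ℂ)) := by
  rw [hφ _ _ h]
  congr 1
  refine Gw_per hL hE (Ok_pt hL hn y) ?_
  have h1 := (div_mem_iff hL hn.ne (x - y)).2 h
  have e : Ω * (x : ℂ) / (n : ℂ) - Ω * (y : ℂ) / (n : ℂ) = Ω * ((x - y : RR) : ℂ) / (n : ℂ) := by
    push_cast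
    ring
  rw [e]
  exact h1

omit [Fintype (RR ⧸ sp fR)] in
theorem bij_cop' {n c : RR} (hc : IsCoprime n c) :
    Function.Bijective (fun y : RR ⧸ sp n => Ideal.Quotient.mk (sp n) (c * y.out)) := by
  have hu : IsUnit (Ideal.Quotient.mk (sp n) c) := by
    obtain ⟨a, b, hab⟩ := hc
    refine IsUnit.of_mul_eq_one (Ideal.Quotient.mk (sp n) b) ?_
    rw [← map_mul, ← map_one (Ideal.Quotient.mk (sp n)), Ideal.Quotient.mk_eq_mk_iff_sub_mem,
      Ideal.mem_span_singleton']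
    exact ⟨-a, by linear_combination -hab⟩
  obtain ⟨u, hu⟩ := hu
  have e1 : (fun y : RR ⧸ sp n => Ideal.Quotient.mk (sp n) (c * y.out)) =
      fun y => (Units.mulLeft u) y := by
    funext y
    rw [map_mul, Ideal.Quotient.mk_out, Units.mulLeft_apply, hu]
  rw [e1]
  exact (Units.mulLeft u).bijective

/-- substitution of a multiple -/
theorem Bw_sub (hL : IsLat L RR Ω) (hE : Pf L E) {n c : RR} (hn : Gd n) (hc : IsCoprime fR c)
    (hcn : IsCoprime n c) {φ : RR → ℂ} (hφ : Pe n φ) {κ : ℂ} (hκ : κ ^ 2 = 1) (hM : Mu c φ κ) :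
    Bw Ω (fun z => E (c * z)) n φ = κ * e7 c * Bw Ω E n φ := by
  have f1 := fin_quot hn.ne
  let _ : Fintype (RR ⧸ sp n) := Fintype.ofFinite _
  rw [Bw_eq, Bw_eq, sum_rep _ (bij_cop' hcn) (fun x : RR => φ x * Gw Ω E (Ω * x / (n : ℂ)))
    (fun x y h => Bw_term hL hE hn hφ h), Finset.mul_sum]
  refine Finset.sum_congr rfl fun x _ => ?_
  have h1 : Gw Ω (fun z => E (c * z)) (Ω * x.out / (n : ℂ)) =
      e7 c * Gw Ω E (Ω * ((c * x.out : RR) : ℂ) / (n : ℂ)) := by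
    rw [← Gw_mul hL hE hc (Ok_pt hL hn (c * x.out))]
    unfold Gw
    refine Finset.sum_congr rfl fun y _ => ?_
    have e : (c : ℂ) * (Ω * y.out / fR + Ω * x.out / n) =
        c * (Ω * y.out / fR) + Ω * ((c * x.out : RR) : ℂ) / n := by
      push_cast
      ring
    beta_reduce
    rw [e]
  rw [h1, hM]
  linear_combination -(φ x.out * e7 c * Gw Ω E (Ω * ((c * x.out : RR) : ℂ) / (n : ℂ))) * hκ

theorem Bw_smulE {n : RR} (hn : n ≠ 0) (a : ℂ) (E : ℂ → ℂ) (φ : RR → ℂ) :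
    Bw Ω (fun z => a * E z) n φ = a * Bw Ω E n φ := by
  have f1 := fin_quot hn
  let _ : Fintype (RR ⧸ sp n) := Fintype.ofFinite _
  rw [Bw_eq, Bw_eq, Finset.mul_sum]
  refine Finset.sum_congr rfl fun x _ => ?_
  unfold Gw
  rw [Finset.mul_sum, Finset.mul_sum, Finset.mul_sum]
  exact Finset.sum_congr rfl fun y _ => by ring

theorem Bw_addE {n : RR} (hn : n ≠ 0) (E E' : ℂ → ℂ) (φ : RR → ℂ) :
    Bw Ω (fun z => E z + E' z) n φ = Bw Ω E n φ + Bw Ω E' n φ := by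
  have f1 := fin_quot hn
  let _ : Fintype (RR ⧸ sp n) := Fintype.ofFinite _
  rw [Bw_eq, Bw_eq, Bw_eq, ← Finset.sum_add_distrib]
  refine Finset.sum_congr rfl fun x _ => ?_
  unfold Gw
  rw [Finset.mul_sum, Finset.mul_sum, Finset.mul_sum, ← Finset.sum_add_distrib]
  exact Finset.sum_congr rfl fun y _ => by ring

theorem Bw_smul {n : RR} (hn : n ≠ 0) (E : ℂ → ℂ) (c : ℂ) (φ : RR → ℂ) :
    Bw Ω E n (fun m => c * φ m) = c * Bw Ω E n φ := by
  have f1 := fin_quot hn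
  let _ : Fintype (RR ⧸ sp n) := Fintype.ofFinite _
  rw [Bw_eq, Bw_eq, Finset.mul_sum]
  exact Finset.sum_congr rfl fun x _ => by ring

theorem Bw_sum {n : RR} (hn : n ≠ 0) (E : ℂ → ℂ) {ι : Type*} (s : Finset ι) (φ : ι → RR → ℂ) :
    Bw Ω E n (fun m => ∑ i ∈ s, φ i m) = ∑ i ∈ s, Bw Ω E n (φ i) := by
  have f1 := fin_quot hn
  let _ : Fintype (RR ⧸ sp n) := Fintype.ofFinite _
  simp only [Bw_eq]
  rw [Finset.sum_comm]
  exact Finset.sum_congr rfl fun x _ => by rw [Finset.sum_mul]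

/-- the four terms -/
theorem Bw_N1 (h : Dat L Ω q) {n m : RR} (hn : Gd n) (hm : m * bR - 1 ∈ sp (fR * n))
    (h2 : IsCoprime n 2) {φ : RR → ℂ} (hφ : Pe n φ) {κa κb : ℂ} (ha : κa ^ 2 = 1)
    (hb : κb ^ 2 = 1) (hMa : Mu aR φ κa) (hMb : Mu bR φ κb) :
    Bw Ω (fun z => N1 L q (m * z)) n φ =
      (1 - bl⁻¹ * κa) * (1 - bl⁻¹ * κb) * Bw Ω (Mk L q 0) n φ := by
  have hL := h.ld.lat
  have hE := Pf_Mk h 0
  have hnm : m * bR - 1 ∈ sp n := by
    rw [Ideal.mem_span_singleton] at hm ⊢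
    exact (Dvd.intro_left _ rfl).trans hm
  have hfm : m * bR - 1 ∈ sp fR := by
    rw [Ideal.mem_span_singleton] at hm ⊢
    exact (Dvd.intro _ rfl).trans hm
  have cn : IsCoprime n (m * bR) := by
    rw [Ideal.mem_span_singleton'] at hnm
    obtain ⟨t, ht⟩ := hnm
    exact ⟨-t, 1, by linear_combination -ht⟩
  have cf : IsCoprime fR (m * bR) := by
    rw [Ideal.mem_span_singleton'] at hfm
    obtain ⟨t, ht⟩ := hfm
    exact ⟨-t, 1, by linear_combination -ht⟩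
  have cnm : IsCoprime n m := cn.of_mul_right_left
  have cfm : IsCoprime fR m := cf.of_mul_right_left
  have cna : IsCoprime n aR := by
    rw [← aR_mul_bR] at h2
    exact h2.of_mul_right_left
  have cf2 : IsCoprime fR (2 : RR) := by
    refine ⟨-fR, -3, ?_⟩
    have := fR_sq
    linear_combination -this
  have cfa : IsCoprime fR aR := by
    rw [← aR_mul_bR] at cf2
    exact cf2.of_mul_right_left
  have em : e7 (m * bR) = 1 := by
    rw [e7_per hfm, e7_one]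
  have em' : e7 m = 1 := by
    rw [e7_mul, e7_bR, mul_one] at em
    exact em
  have hMm : Mu m φ κb := by
    intro x
    have h3 : φ (m * bR * (m * x)) = φ (m * x) := by
      apply hφ
      have e : m * bR * (m * x) - m * x = (m * bR - 1) * (m * x) := by ring
      rw [e]
      exact Ideal.mul_mem_right _ _ hnm
    have h4 : φ (m * bR * x) = φ x := by
      apply hφ
      have e : m * bR * x - x = (m * bR - 1) * x := by ring
      rw [e]
      exact Ideal.mul_mem_right _ _ hnm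
    have h5 : φ (m * bR * x) = κb * φ (m * x) := by
      rw [← hMb (m * x)]
      congr 1
      ring
    rw [← h4, h5]
    linear_combination -(φ (m * x)) * hb
  have hM1 : Mu (m * bR) φ 1 := by
    intro x
    rw [one_mul]
    apply hφ
    have e : m * bR * x - x = (m * bR - 1) * x := by ring
    rw [e]
    exact Ideal.mul_mem_right _ _ hnm
  have hM2 : Mu (aR * (m * bR)) φ κa := by
    intro x
    rw [mul_assoc, hMa, hM1, one_mul]
  have hM3 : Mu (aR * m) φ (κa * κb) := by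
    intro x
    rw [mul_assoc, hMa, hMm]
    ring
  have b1 := Bw_sub hL hE hn cf cn hφ (one_pow 2) hM1
  have b2 := Bw_sub hL hE hn (cfa.mul_right cf) (cna.mul_right cn) hφ ha hM2
  have b3 := Bw_sub hL hE hn cfm cnm hφ hb hMm
  have b4 := Bw_sub hL hE hn (cfa.mul_right cfm) (cna.mul_right cnm) hφ
    (by rw [mul_pow, ha, hb, one_mul]) hM3
  rw [em] at b1
  rw [e7_mul, e7_aR, em] at b2
  rw [em'] at b3
  rw [e7_mul, e7_aR, em'] at b4
  have e1 : (fun z : ℂ => N1 L q (m * z)) = fun z =>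
      Mk L q 0 (((m * bR : RR) : ℂ) * z) + ((-bl⁻¹) * Mk L q 0 (((aR * (m * bR) : RR) : ℂ) * z) +
        ((-bl⁻¹) * Mk L q 0 ((m : ℂ) * z) + bl⁻¹ ^ 2 * Mk L q 0 (((aR * m : RR) : ℂ) * z))) := by
    funext z
    unfold N1
    have g1 : bl * ((m : ℂ) * z) = ((m * bR : RR) : ℂ) * z := by
      push_cast
      rw [bR_coe]
      ring
    have g2 : 2 * ((m : ℂ) * z) = ((aR * (m * bR) : RR) : ℂ) * z := by
      push_cast
      rw [bR_coe, aR_coe, ← al_mul_bl]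
      ring
    have g3 : al * ((m : ℂ) * z) = ((aR * m : RR) : ℂ) * z := by
      push_cast
      rw [aR_coe]
      ring
    rw [g1, g2, g3]
    ring
  rw [e1, Bw_addE hn.ne, Bw_addE hn.ne, Bw_addE hn.ne, Bw_smulE hn.ne, Bw_smulE hn.ne,
    Bw_smulE hn.ne, b1, b2, b3, b4]
  ring

omit [Fintype (RR ⧸ sp fR)] in
/-- the mixed character -/
theorem mixed {ι : Type} [DecidableEq ι] {S : Finset ι} {π : ι → RR} (hS : Fam S π)
    {A : Finset ι} (hA : A ⊆ S) :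
    Pe (∏ i ∈ S, π i) (fun x => (∏ i ∈ A, sy (π i) x) * ∏ i ∈ S \ A, tr (π i) x) ∧
    (∀ c : RR, IsCoprime (∏ i ∈ S, π i) c → Mu c (fun x => (∏ i ∈ A, sy (π i) x) *
      ∏ i ∈ S \ A, tr (π i) x) (∏ i ∈ A, sy (π i) c)) ∧
    ∀ c : RR, IsCoprime (∏ i ∈ S, π i) c → (∏ i ∈ A, sy (π i) c) ^ 2 = 1 := by
  have hnc : ∀ c : RR, IsCoprime (∏ i ∈ S, π i) c → ∀ i ∈ S, c ∉ sp (π i) := by
    intro c hc i hi h
    rw [Ideal.mem_span_singleton] at h
    have h1 : IsCoprime (π i) (π i) :=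
      (hc.of_isCoprime_of_dvd_left (Finset.dvd_prod_of_mem _ hi)).of_isCoprime_of_dvd_right h
    exact (hS.pd i hi).pr.not_isUnit (isCoprime_self.1 h1)
  refine ⟨?_, fun c hc => ?_, fun c hc => ?_⟩
  · have h1 : Pe (∏ i ∈ S, π i) (fun x => ∏ i ∈ A, sy (π i) x) :=
      (SG.Pe.prod fun i _ => SG.sy_per (π i)).mono (Finset.prod_dvd_prod_of_subset _ _ _ hA)
    have h2 : Pe (∏ i ∈ S, π i) (fun x => ∏ i ∈ S \ A, tr (π i) x) :=
      (SG.Pe.prod fun i _ => SG.tr_per (π i)).mono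
        (Finset.prod_dvd_prod_of_subset _ _ _ Finset.sdiff_subset)
    exact h1.mul h2
  · have h1 : Mu c (fun x => ∏ i ∈ A, sy (π i) x) (∏ i ∈ A, sy (π i) c) :=
      SG.Mu.prod fun i hi x => (hS.pd i (hA hi)).mul _ _
    have h2 : Mu c (fun x => ∏ i ∈ S \ A, tr (π i) x) (∏ i ∈ S \ A, (1 : ℂ)) :=
      SG.Mu.prod fun i hi x => by
        rw [one_mul]
        exact SG.tr_mul (hS.pd i (Finset.mem_sdiff.1 hi).1).pr (hnc c hc i (Finset.mem_sdiff.1 hi).1) x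
    rw [Finset.prod_const_one] at h2
    have h3 := h1.mul h2
    rwa [mul_one] at h3
  · rw [← Finset.prod_pow]
    refine Finset.prod_eq_one fun i hi => ?_
    rcases SG.sy_sgn (hnc c hc i (hA hi)) with h | h <;> rw [h] <;> norm_num

omit [Fintype (RR ⧸ sp fR)] in
theorem cop_two {ι : Type} {S : Finset ι} {π : ι → RR} (hS : Fam S π) :
    IsCoprime (∏ i ∈ S, π i) (2 : RR) := by
  refine IsCoprime.prod_left fun i hi => ?_
  obtain ⟨u, hu⟩ := (hS.pd i hi).m4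
  exact ⟨1, -2 * u, by rw [hu]; ring⟩

/-- the four terms, mixed characters -/
theorem N1_mixed (h : Dat L Ω q) {ι : Type} [DecidableEq ι] {S : Finset ι} {π : ι → RR}
    (hS : Fam S π) {m : RR} (hm : m * bR - 1 ∈ sp (fR * ∏ i ∈ S, π i)) {A : Finset ι}
    (hA : A ⊆ S) :
    Bw Ω (fun z => N1 L q (m * z)) (∏ i ∈ S, π i)
      (fun x => (∏ i ∈ A, sy (π i) x) * ∏ i ∈ S \ A, tr (π i) x) =
    (1 - bl⁻¹ * ∏ i ∈ A, sy (π i) aR) * (1 - bl⁻¹ * ∏ i ∈ A, sy (π i) bR) *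
      Bw Ω (Mk L q 0) (∏ i ∈ S, π i)
        (fun x => (∏ i ∈ A, sy (π i) x) * ∏ i ∈ S \ A, tr (π i) x) := by
  have hc2 := cop_two hS
  obtain ⟨h1, h2, h3⟩ := mixed hS hA
  have hca : IsCoprime (∏ i ∈ S, π i) aR := by
    rw [← aR_mul_bR] at hc2
    exact hc2.of_mul_right_left
  have hcb : IsCoprime (∏ i ∈ S, π i) bR := by
    rw [← aR_mul_bR] at hc2
    exact hc2.of_mul_right_right
  exact Bw_N1 h (SG.Gd.prod fun i hi => (hS.pd i hi).gd) hm hc2 h1 (h3 _ hca) (h3 _ hcb)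
    (h2 _ hca) (h2 _ hcb)

omit [Fintype (RR ⧸ sp fR)] in
theorem mem_sub {ι : Type} {S S' : Finset ι} {π : ι → RR} (hS : S' ⊆ S) {x : RR}
    (hx : x ∈ sp (fR * ∏ i ∈ S, π i)) : x ∈ sp (fR * ∏ i ∈ S', π i) := by
  rw [Ideal.mem_span_singleton] at hx ⊢
  exact (mul_dvd_mul_left _ (Finset.prod_dvd_prod_of_subset _ _ _ hS)).trans hx

omit [Fintype (RR ⧸ sp fR)] in
theorem hc_expand {ι : Type} [DecidableEq ι] (S : Finset ι) (π : ι → RR) (x : RR) :
    ∑ A ∈ S.powerset, ((∏ i ∈ A, sy (π i) x) * ∏ i ∈ S \ A, tr (π i) x) =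
      2 ^ S.card * ∏ i ∈ S, hc (π i) x := by
  have h2 : ∏ i ∈ S, (sy (π i) x + tr (π i) x) =
      ∑ A ∈ S.powerset, (∏ i ∈ A, sy (π i) x) * ∏ i ∈ S \ A, tr (π i) x :=
    Finset.prod_add _ _ _
  rw [← h2, ← Finset.prod_const, ← Finset.prod_mul_distrib]
  refine Finset.prod_congr rfl fun i _ => ?_
  unfold hc
  ring

end

/-- BKL-29 (NSUB). -/
theorem t_NSUB : Pool.Agent.Q274.BKL.S_NSUB := by
  intro hP hD L Ω q h _ ι _ S π hS m hm S' hS'
  have hL := h.ld.lat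
  have hF' := hS.mono hS'
  have hm' := mem_sub hS' hm
  obtain ⟨F, -, -, hF⟩ := val_one
  have hT := hF L Ω hL
  constructor
  · have h1 := N1_mixed h hF' hm' (Finset.Subset.refl S')
    rw [Finset.sdiff_self] at h1
    simp only [Finset.prod_empty, mul_one] at h1
    exact h1
  · have hg : Gd (∏ i ∈ S', π i) := SG.Gd.prod fun i hi => (hF'.pd i hi).gd
    have e1 : ∀ A ∈ S'.powerset, (∏ i ∈ S' \ A, ((π i : ℂ) * e7 (π i) -
        ∏ j ∈ A, sy (π j) (π i))) *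
        Bw Ω (fun z => N1 L q (m * z)) (∏ i ∈ A, π i) (fun x => ∏ i ∈ A, sy (π i) x) =
        Bw Ω (fun z => N1 L q (m * z)) (∏ i ∈ S', π i)
          (fun x => (∏ i ∈ A, sy (π i) x) * ∏ i ∈ S' \ A, tr (π i) x) := by
      intro A hA
      rw [Finset.mem_powerset] at hA
      have hFA := hF'.mono hA
      have hgA : Gd (∏ i ∈ A, π i) := SG.Gd.prod fun i hi => (hFA.pd i hi).gd
      have h1 := N1_mixed h hFA (mem_sub hA hm') (Finset.Subset.refl A)
      rw [Finset.sdiff_self] at h1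
      simp only [Finset.prod_empty, mul_one] at h1
      have h2 := N1_mixed h hF' hm' hA
      have h3 := SG.Bg_rems (L := L) hL hT hgA (φ := fun x => ∏ i ∈ A, sy (π i) x)
        (SG.Pe.prod fun i _ => SG.sy_per (π i)) (π := π) (fun i => ∏ j ∈ A, sy (π j) (π i))
        (S' \ A) (hF'.mono Finset.sdiff_subset)
        (fun i _ => SG.Mu.prod fun j hj x => (hFA.pd j hj).mul _ _)
      rw [Finset.prod_sdiff hA] at h3
      have h4 := t_EQ0 hP hD L Ω q h _ hT _ _ hg (mixed hF' hA).1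
      have h5 := t_EQ0 hP hD L Ω q h _ hT _ (fun x => ∏ i ∈ A, sy (π i) x) hgA
        (SG.Pe.prod fun i _ => SG.sy_per (π i))
      rw [h1, h2, h4, h5, h3]
      ring
    rw [Finset.sum_congr rfl e1, ← Bw_sum hg.ne, ← Bw_smul hg.ne]
    congr 1
    funext x
    exact hc_expand S' π x

end Pool.Agent.Q14.BKL
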